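import Mathlib

set_option autoImplicit false

open Finset Filter Topology Polynomial NumberField

namespace Pool.Agent.K4H27.TN

/-- the index of an ideal -/
noncomputable def ix {R : Type*} [CommRing R] (J : Ideal R) : ℕ := (Submodule.toAddSubgroup J).index

theorem ix_eq {R : Type*} [CommRing R] (J : Ideal R) : ix J = Nat.card (R ⧸ J) := rfl

theorem ix_dvd {R : Type*} [CommRing R] {J J' : Ideal R} (h : J ≤ J') : ix J' ∣ ix J :=
  AddSubgroup.index_dvd_of_le (H := Submodule.toAddSubgroup J) (K := Submodule.toAddSubgroup J') h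

/-- multiplicativity of the bound -/
theorem ix_mul {R : Type*} [CommRing R] (I : Ideal R) (g h : R)
    (hh : ix (I ⊔ Ideal.span {h}) ≠ 0) :
    ix (I ⊔ Ideal.span {g * h}) ≤ ix (I ⊔ Ideal.span {g}) * ix (I ⊔ Ideal.span {h}) := by
  set A : AddSubgroup R := Submodule.toAddSubgroup (I ⊔ Ideal.span {g * h}) with hA
  set B : AddSubgroup R := Submodule.toAddSubgroup (I ⊔ Ideal.span {g}) with hB
  set C : AddSubgroup R := Submodule.toAddSubgroup (I ⊔ Ideal.span {h}) with hC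
  let φ : R →+ R := AddMonoidHom.mulLeft g
  have hAB : A ≤ B := by
    intro x hx
    have hx' : x ∈ I ⊔ Ideal.span {g * h} := hx
    have : I ⊔ Ideal.span {g * h} ≤ I ⊔ Ideal.span {g} :=
      sup_le_sup_left (Ideal.span_singleton_le_span_singleton.mpr (Dvd.intro _ rfl)) _
    exact this hx'
  have hCA : C ≤ A.comap φ := by
    intro x hx
    have hx' : x ∈ I ⊔ Ideal.span {h} := hx
    obtain ⟨i, hi, y, hy, rfl⟩ := Submodule.mem_sup.mp hx'
    obtain ⟨r, rfl⟩ := Ideal.mem_span_singleton'.mp hy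
    show g * (i + r * h) ∈ I ⊔ Ideal.span {g * h}
    rw [mul_add]
    refine Submodule.add_mem_sup (I.mul_mem_left _ hi) ?_
    exact Ideal.mem_span_singleton'.mpr ⟨r, by ring⟩
  have hBA : B = A ⊔ φ.range := by
    apply le_antisymm
    · intro x hx
      have hx' : x ∈ I ⊔ Ideal.span {g} := hx
      obtain ⟨i, hi, y, hy, rfl⟩ := Submodule.mem_sup.mp hx'
      obtain ⟨r, rfl⟩ := Ideal.mem_span_singleton'.mp hy
      refine AddSubgroup.add_mem_sup ?_ ?_
      · show i ∈ I ⊔ Ideal.span {g * h}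
        exact Submodule.mem_sup_left hi
      · exact ⟨r, by show g * r = r * g; ring⟩
    · refine sup_le hAB ?_
      rintro _ ⟨r, rfl⟩
      show g * r ∈ I ⊔ Ideal.span {g}
      exact Submodule.mem_sup_right (Ideal.mem_span_singleton'.mpr ⟨r, by ring⟩)
  have h1 : A.relIndex B * B.index = A.index := AddSubgroup.relIndex_mul_index hAB
  have h2 : A.relIndex B = A.relIndex φ.range := by
    rw [hBA, AddSubgroup.relIndex_sup_left]
  have h3 : (A.comap φ).index = A.relIndex φ.range := AddSubgroup.index_comap _ _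
  have h4 : (A.comap φ).index ≤ C.index := Nat.le_of_dvd (Nat.pos_of_ne_zero hh)
    (AddSubgroup.index_dvd_of_le hCA)
  show A.index ≤ B.index * C.index
  rw [← h1, h2, ← h3, mul_comm]
  exact Nat.mul_le_mul_left _ h4

theorem ix_prod {R ι : Type*} [CommRing R] [DecidableEq ι] (I : Ideal R) (s : Finset ι) (g : ι → R)
    (hh : ∀ i ∈ s, ix (I ⊔ Ideal.span {g i}) ≠ 0) :
    ix (I ⊔ Ideal.span {∏ i ∈ s, g i}) ≤ ∏ i ∈ s, ix (I ⊔ Ideal.span {g i}) := by
  induction s using Finset.induction_on with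
  | empty =>
    simp [ix]
  | insert a s ha ih =>
    rw [Finset.prod_insert ha, Finset.prod_insert ha, mul_comm (g a), mul_comm (ix _)]
    refine (ix_mul I _ _ (hh a (Finset.mem_insert_self _ _))).trans ?_
    exact Nat.mul_le_mul_right _ (ih fun i hi => hh i (Finset.mem_insert_of_mem hi))

/-- one cyclotomic factor -/
theorem ix_cyclotomic_aux (K : Type) [Field K] [NumberField K] (d : ℕ) (hd : 0 < d) [NeZero d]
    [IsCyclotomicExtension {d} ℚ K] (I : Ideal ℤ[X]) (G : ℤ[X]) (hG : G ∈ I)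
    (hne : ¬ cyclotomic d ℤ ∣ G) (B : ℝ) (hB : ∀ z : ℂ, ‖z‖ = 1 → ‖aeval z G‖ ≤ B) :
    ix (I ⊔ Ideal.span {cyclotomic d ℤ}) ≠ 0 ∧
      (ix (I ⊔ Ideal.span {cyclotomic d ℤ}) : ℝ) ≤ B ^ (Nat.totient d) := by
  let ζ : K := IsCyclotomicExtension.zeta d ℚ K
  have hζ : IsPrimitiveRoot ζ d := IsCyclotomicExtension.zeta_spec d ℚ K
  let ψ : ℤ[X] →ₐ[ℤ] 𝓞 K := aeval hζ.toInteger
  have hsurj : Function.Surjective ψ := by
    have h1 : Algebra.adjoin ℤ {hζ.toInteger} = ⊤ :=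
      IsCyclotomicExtension.Rat.adjoin_singleton_eq_top hζ
    rw [Algebra.adjoin_singleton_eq_range_aeval] at h1
    intro x
    have h2 : x ∈ (⊤ : Subalgebra ℤ (𝓞 K)) := Algebra.mem_top
    rw [← h1] at h2
    exact h2
  have hval : ∀ P : ℤ[X], ((ψ P : 𝓞 K) : K) = aeval ζ P := by
    intro P
    show algebraMap (𝓞 K) K (aeval hζ.toInteger P) = aeval ζ P
    rw [← aeval_algebraMap_apply]
    rfl
  have hker : ∀ P : ℤ[X], ψ P = 0 ↔ cyclotomic d ℤ ∣ P := by
    intro P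
    rw [cyclotomic_eq_minpoly hζ hd]
    have h1 : ψ P = 0 ↔ aeval ζ P = 0 := by
      rw [← hval]
      exact ⟨fun h => by rw [h]; rfl, fun h => by exact_mod_cast h⟩
    rw [h1]
    exact (minpoly.isIntegrallyClosed_dvd_iff (hζ.isIntegral hd) P)
  have hg0 : ψ G ≠ 0 := fun h => hne ((hker G).mp h)
  -- the index
  let J : Ideal (𝓞 K) := Ideal.span {ψ G}
  have h1 : J.comap ψ.toRingHom ≤ I ⊔ Ideal.span {cyclotomic d ℤ} := by
    intro P hP
    have hP' : ψ P ∈ Ideal.span {ψ G} := hP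
    obtain ⟨r, hr⟩ := Ideal.mem_span_singleton'.mp hP'
    obtain ⟨Q, rfl⟩ := hsurj r
    have h2 : ψ (P - Q * G) = 0 := by rw [map_sub, map_mul, hr, sub_self]
    obtain ⟨W, hW⟩ := (hker _).mp h2
    have h3 : P = Q * G + cyclotomic d ℤ * W := by rw [← hW]; ring
    rw [h3]
    refine Submodule.add_mem_sup (I.mul_mem_left _ hG) ?_
    exact Ideal.mem_span_singleton'.mpr ⟨W, by ring⟩
  have h2 : ix (J.comap ψ.toRingHom) = ix J := by
    have h3 := AddSubgroup.index_comap_of_surjective (Submodule.toAddSubgroup J)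
      (f := ψ.toRingHom.toAddMonoidHom) hsurj
    exact h3
  have h3 : ix J = Ideal.absNorm J := rfl
  have h4 : Ideal.absNorm J ≠ 0 := by
    rw [Ne, Ideal.absNorm_eq_zero_iff, Ideal.span_singleton_eq_bot]
    exact hg0
  have h5 : (Ideal.absNorm J : ℝ) ≤ B ^ (Nat.totient d) := by
    have e1 : Ideal.absNorm J = (Algebra.norm ℤ (ψ G)).natAbs := Ideal.absNorm_span_singleton _
    have e2 : (algebraMap ℚ ℂ) (Algebra.norm ℚ ((ψ G : 𝓞 K) : K)) =
        ∏ σ : K →ₐ[ℚ] ℂ, σ ((ψ G : 𝓞 K) : K) := Algebra.norm_eq_prod_embeddings ℚ ℂ _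
    have e3 : ((Algebra.norm ℤ (ψ G) : ℤ) : ℚ) = Algebra.norm ℚ ((ψ G : 𝓞 K) : K) :=
      Algebra.coe_norm_int _
    have e4 : ((Ideal.absNorm J : ℕ) : ℝ) = ‖(algebraMap ℚ ℂ) (Algebra.norm ℚ ((ψ G : 𝓞 K) : K))‖ := by
      rw [← e3, e1]
      simp [Nat.cast_natAbs]
    rw [e4, e2, norm_prod]
    have e5 : Fintype.card (K →ₐ[ℚ] ℂ) = Nat.totient d := by
      rw [AlgHom.card]
      exact IsCyclotomicExtension.finrank K (cyclotomic.irreducible_rat hd)
    rw [← e5, ← Finset.card_univ]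
    rw [← Finset.prod_const]
    refine Finset.prod_le_prod (fun σ _ => norm_nonneg _) ?_
    intro σ _
    have e6 : σ ((ψ G : 𝓞 K) : K) = aeval (σ ζ) G := by
      rw [hval]
      exact (aeval_algHom_apply (σ.restrictScalars ℤ) ζ G).symm
    rw [e6]
    refine hB _ ?_
    have e7 : (σ ζ) ^ d = 1 := by rw [← map_pow, hζ.pow_eq_one, map_one]
    exact Complex.norm_eq_one_of_pow_eq_one e7 hd.ne'
  have h6 : ix (I ⊔ Ideal.span {cyclotomic d ℤ}) ∣ Ideal.absNorm J := by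
    rw [← h3, ← h2]; exact ix_dvd h1
  refine ⟨fun h => h4 ?_, ?_⟩
  · rw [h] at h6; exact Nat.eq_zero_of_zero_dvd h6
  · exact le_trans (by exact_mod_cast Nat.le_of_dvd (Nat.pos_of_ne_zero h4) h6) h5

theorem ix_cyclotomic (d : ℕ) (hd : 0 < d) (I : Ideal ℤ[X]) (G : ℤ[X]) (hG : G ∈ I)
    (hne : ¬ cyclotomic d ℤ ∣ G) (B : ℝ) (hB : ∀ z : ℂ, ‖z‖ = 1 → ‖aeval z G‖ ≤ B) :
    ix (I ⊔ Ideal.span {cyclotomic d ℤ}) ≠ 0 ∧
      (ix (I ⊔ Ideal.span {cyclotomic d ℤ}) : ℝ) ≤ B ^ (Nat.totient d) := by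
  have h1 : NeZero d := ⟨hd.ne'⟩
  have h2 : NeZero ((d : ℕ) : ℚ) := NeZero.charZero
  have h3 : IsCyclotomicExtension {d} ℚ (CyclotomicField d ℚ) :=
    CyclotomicField.isCyclotomicExtension d ℚ
  have h4 : NumberField (CyclotomicField d ℚ) := IsCyclotomicExtension.numberField {d} ℚ _
  exact ix_cyclotomic_aux (CyclotomicField d ℚ) d hd I G hG hne B hB

/-- the ideal -/
noncomputable def IN (N : ℕ) : Ideal ℤ[X] := Ideal.span ({X ^ N - 1, (X + 1) ^ N - 1, (X - 1) ^ N - 1} : Set ℤ[X])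

theorem one_or (N d : ℕ) (hd : 0 < d) :
    ¬ cyclotomic d ℤ ∣ (X + 1) ^ N - 1 ∨ ¬ cyclotomic d ℤ ∣ (X - 1) ^ N - 1 ∨ N = 0 := by
  by_contra hcon
  push Not at hcon
  obtain ⟨⟨P, hP⟩, ⟨Q, hQ⟩, hN⟩ := hcon
  have hz := Complex.isPrimitiveRoot_exp d hd.ne'
  set z := Complex.exp (2 * Real.pi * Complex.I / d) with hzdef
  have hz1 : ‖z‖ = 1 := Complex.norm_eq_one_of_pow_eq_one hz.pow_eq_one hd.ne'
  have hroot : aeval z (cyclotomic d ℤ) = 0 := by
    have h1 : (cyclotomic d ℂ).IsRoot z := (isRoot_cyclotomic_iff_charZero hd).mpr hz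
    rw [← map_cyclotomic_int] at h1
    rw [IsRoot, eval_map, ← algebraMap_int_eq, ← aeval_def] at h1
    exact h1
  have h1 : (z + 1) ^ N = 1 := by
    have := congrArg (aeval z) hP
    rw [map_mul, hroot, zero_mul] at this
    simp at this
    linear_combination this
  have h2 : (z - 1) ^ N = 1 := by
    have := congrArg (aeval z) hQ
    rw [map_mul, hroot, zero_mul] at this
    simp at this
    linear_combination this
  have h3 : ‖z + 1‖ = 1 := Complex.norm_eq_one_of_pow_eq_one h1 hN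
  have h4 : ‖z - 1‖ = 1 := Complex.norm_eq_one_of_pow_eq_one h2 hN
  have h5 : ‖z + 1‖ ^ 2 + ‖z - 1‖ ^ 2 = 2 * ‖z‖ ^ 2 + 2 := by
    rw [← Complex.normSq_eq_norm_sq, ← Complex.normSq_eq_norm_sq, ← Complex.normSq_eq_norm_sq,
      Complex.normSq_apply, Complex.normSq_apply, Complex.normSq_apply]
    simp
    ring
  rw [h3, h4, hz1] at h5
  norm_num at h5

/-- **P1**: the final bound -/
theorem final_bound (N : ℕ) (hN : 1 ≤ N) (F : ℤ[X]) (hF : F ∈ IN N) (hF0 : F ≠ 0) (D : ℕ)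
    (hD : F.natDegree ≤ D) (H : ℝ) (hH1 : 1 ≤ H) (hH : ∀ z : ℂ, ‖z‖ = 1 → ‖aeval z F‖ ≤ H) :
    Real.log ((Nat.card (ℤ[X] ⧸ IN N) : ℕ) : ℝ) ≤ N * Real.log H + D * Real.log (2 ^ N + 1) := by
  classical
  have h2N : (1 : ℝ) ≤ 2 ^ N + 1 := by
    have : (0 : ℝ) < 2 ^ N := by positivity
    linarith
  have hmem1 : X ^ N - 1 ∈ IN N := Ideal.subset_span (by simp)
  have hmem2 : (X + 1) ^ N - 1 ∈ IN N := Ideal.subset_span (by simp)
  have hmem3 : (X - 1) ^ N - 1 ∈ IN N := Ideal.subset_span (by simp)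
  have hb2 : ∀ z : ℂ, ‖z‖ = 1 → ‖aeval z ((X + 1) ^ N - 1 : ℤ[X])‖ ≤ 2 ^ N + 1 := by
    intro z hz
    have e : aeval z ((X + 1) ^ N - 1 : ℤ[X]) = (z + 1) ^ N - 1 := by simp
    rw [e]
    refine (norm_sub_le _ _).trans ?_
    rw [norm_pow, norm_one]
    have : ‖z + 1‖ ≤ 2 := (norm_add_le _ _).trans (by rw [hz, norm_one]; norm_num)
    have := pow_le_pow_left₀ (norm_nonneg _) this N
    linarith
  have hb3 : ∀ z : ℂ, ‖z‖ = 1 → ‖aeval z ((X - 1) ^ N - 1 : ℤ[X])‖ ≤ 2 ^ N + 1 := by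
    intro z hz
    have e : aeval z ((X - 1) ^ N - 1 : ℤ[X]) = (z - 1) ^ N - 1 := by simp
    rw [e]
    refine (norm_sub_le _ _).trans ?_
    rw [norm_pow, norm_one]
    have : ‖z - 1‖ ≤ 2 := (norm_sub_le _ _).trans (by rw [hz, norm_one]; norm_num)
    have := pow_le_pow_left₀ (norm_nonneg _) this N
    linarith
  -- the bound for one factor
  let bd : ℕ → ℝ := fun d => if cyclotomic d ℤ ∣ F then 2 ^ N + 1 else H
  have hbd1 : ∀ d, 1 ≤ bd d := by
    intro d
    show (1 : ℝ) ≤ if cyclotomic d ℤ ∣ F then 2 ^ N + 1 else H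
    split_ifs <;> assumption
  have hone : ∀ d ∈ N.divisors, ix (IN N ⊔ Ideal.span {cyclotomic d ℤ}) ≠ 0 ∧
      (ix (IN N ⊔ Ideal.span {cyclotomic d ℤ}) : ℝ) ≤ bd d ^ (Nat.totient d) := by
    intro d hd
    have hd0 : 0 < d := Nat.pos_of_mem_divisors hd
    show _ ∧ _ ≤ (if cyclotomic d ℤ ∣ F then 2 ^ N + 1 else H) ^ (Nat.totient d)
    split_ifs with h
    · rcases one_or N d hd0 with h1 | h1 | h1
      · exact ix_cyclotomic d hd0 _ _ hmem2 h1 _ hb2
      · exact ix_cyclotomic d hd0 _ _ hmem3 h1 _ hb3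
      · omega
    · exact ix_cyclotomic d hd0 _ _ hF h _ hH
  have hprod := ix_prod (IN N) N.divisors (fun d => cyclotomic d ℤ) (fun d hd => (hone d hd).1)
  have hI : IN N ⊔ Ideal.span {∏ d ∈ N.divisors, cyclotomic d ℤ} = IN N := by
    rw [prod_cyclotomic_eq_X_pow_sub_one (by omega)]
    exact sup_eq_left.mpr ((Ideal.span_singleton_le_iff_mem _).mpr hmem1)
  rw [hI] at hprod
  have hcard : ix (IN N) = Nat.card (ℤ[X] ⧸ IN N) := ix_eq _
  rcases Nat.eq_zero_or_pos (Nat.card (ℤ[X] ⧸ IN N)) with h0 | hpos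
  · rw [h0]
    simp only [Nat.cast_zero, Real.log_zero]
    have := Real.log_nonneg hH1
    have := Real.log_nonneg h2N
    positivity
  have h1 : ((Nat.card (ℤ[X] ⧸ IN N) : ℕ) : ℝ) ≤ ∏ d ∈ N.divisors, bd d ^ (Nat.totient d) := by
    rw [← hcard]
    calc ((ix (IN N) : ℕ) : ℝ) ≤ ((∏ d ∈ N.divisors, ix (IN N ⊔ Ideal.span {cyclotomic d ℤ}) : ℕ) : ℝ) := by
          exact_mod_cast hprod
      _ = ∏ d ∈ N.divisors, (ix (IN N ⊔ Ideal.span {cyclotomic d ℤ}) : ℝ) := by push_cast; rfl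
      _ ≤ _ := Finset.prod_le_prod (fun d _ => Nat.cast_nonneg _) fun d hd => (hone d hd).2
  have h2 : Real.log ((Nat.card (ℤ[X] ⧸ IN N) : ℕ) : ℝ) ≤
      ∑ d ∈ N.divisors, (Nat.totient d : ℝ) * Real.log (bd d) := by
    refine (Real.log_le_log (by exact_mod_cast hpos) h1).trans ?_
    rw [Real.log_prod (fun d _ => pow_ne_zero _ (by linarith [hbd1 d]))]
    refine Finset.sum_le_sum fun d _ => ?_
    rw [Real.log_pow]
  have h3 : ∀ d, (Nat.totient d : ℝ) * Real.log (bd d) ≤ (Nat.totient d : ℝ) * Real.log H +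
      (if cyclotomic d ℤ ∣ F then (Nat.totient d : ℝ) else 0) * Real.log (2 ^ N + 1) := by
    intro d
    show (Nat.totient d : ℝ) * Real.log (if cyclotomic d ℤ ∣ F then 2 ^ N + 1 else H) ≤ _
    have := Real.log_nonneg hH1
    have := Real.log_nonneg h2N
    split_ifs
    · nlinarith [Nat.cast_nonneg (α := ℝ) (Nat.totient d)]
    · nlinarith [Nat.cast_nonneg (α := ℝ) (Nat.totient d)]
  -- degrees
  have h4 : ∏ d ∈ N.divisors.filter (fun d => cyclotomic d ℤ ∣ F), cyclotomic d ℚ ∣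
      F.map (Int.castRingHom ℚ) := by
    refine Finset.prod_dvd_of_coprime ?_ ?_
    · intro a _ b _ hab
      exact cyclotomic.isCoprime_rat hab
    · intro d hd
      have := (Finset.mem_filter.mp hd).2
      have h5 := Polynomial.map_dvd (Int.castRingHom ℚ) this
      rw [map_cyclotomic_int] at h5
      exact h5
  have h5 : ∑ d ∈ N.divisors.filter (fun d => cyclotomic d ℤ ∣ F), Nat.totient d ≤ D := by
    have hFm : F.map (Int.castRingHom ℚ) ≠ 0 := by
      rw [Ne, Polynomial.map_eq_zero_iff (RingHom.injective_int _)]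
      exact hF0
    have h6 := natDegree_le_of_dvd h4 hFm
    rw [natDegree_map_eq_of_injective (RingHom.injective_int _),
      natDegree_prod _ _ (fun d _ => cyclotomic_ne_zero d ℚ)] at h6
    simp only [natDegree_cyclotomic] at h6
    exact h6.trans hD
  refine h2.trans ((Finset.sum_le_sum fun d _ => h3 d).trans ?_)
  rw [Finset.sum_add_distrib, ← Finset.sum_mul, ← Finset.sum_mul]
  have h6 : ∑ d ∈ N.divisors, (Nat.totient d : ℝ) = N := by
    exact_mod_cast Nat.sum_totient N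
  rw [h6]
  have h7 : ∑ d ∈ N.divisors, (if cyclotomic d ℤ ∣ F then (Nat.totient d : ℝ) else 0) ≤ D := by
    rw [← Finset.sum_filter]
    exact_mod_cast h5
  have h8 := mul_le_mul_of_nonneg_right h7 (Real.log_nonneg h2N)
  linarith

end Pool.Agent.K4H27.TN
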