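import Mathlib

set_option autoImplicit false

open Finset Filter Topology

namespace Pool.Agent.K4H27.TN

/-- a sum of powers of different positive numbers is not zero for large exponents -/
theorem sum_pow_ne_zero {F : Type*} [Fintype F] [Nonempty F] (w ε : F → ℝ) (hw : ∀ f, 0 < w f)
    (hinj : Function.Injective w) (hε : ∀ f, ε f ≠ 0) :
    ∃ N₁ : ℕ, ∀ N : ℕ, N₁ ≤ N → ∑ f, ε f * w f ^ N ≠ 0 := by
  classical
  obtain ⟨f₀, hf₀⟩ := Finite.exists_max w
  have h1 : Tendsto (fun N : ℕ => ∑ f, ε f * (w f / w f₀) ^ N) atTop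
      (𝓝 (∑ f, if f = f₀ then ε f else 0)) := by
    refine tendsto_finsetSum _ fun f _ => ?_
    by_cases hf : f = f₀
    · subst hf
      simp only [if_true]
      rw [div_self (hw f).ne']
      simp
    · rw [if_neg hf]
      have h2 : w f / w f₀ < 1 := by
        rw [div_lt_one (hw _)]
        exact lt_of_le_of_ne (hf₀ f) fun h => hf (hinj h)
      have h3 := tendsto_pow_atTop_nhds_zero_of_lt_one (div_pos (hw f) (hw f₀)).le h2
      simpa using h3.const_mul (ε f)
  rw [Finset.sum_ite_eq' Finset.univ f₀ ε, if_pos (Finset.mem_univ _)] at h1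
  have h2 := h1.eventually_ne (hε f₀)
  obtain ⟨N₁, hN₁⟩ := eventually_atTop.mp h2
  refine ⟨N₁, fun N hN h => hN₁ N hN ?_⟩
  have h3 : ∑ f, ε f * (w f / w f₀) ^ N = (∑ f, ε f * w f ^ N) / w f₀ ^ N := by
    rw [Finset.sum_div]
    refine Finset.sum_congr rfl fun f _ => ?_
    rw [div_pow, mul_div_assoc]
  rw [h3, h, zero_div]

/-- the numbers `U`, `U + 1`, `U - 1` -/
def sh (U : ℕ) (m : Fin 3) : ℕ := if m = 0 then U else if m = 1 then U + 1 else U - 1

/-- the coordinates of a triple -/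
def co {k : ℕ} (s : Fin k × Fin k × Fin k) (m : Fin 3) : ℕ :=
  if m = 0 then (s.1 : ℕ) else if m = 1 then (s.2.1 : ℕ) else (s.2.2 : ℕ)

theorem co_inj {k : ℕ} {s t : Fin k × Fin k × Fin k} (h : ∀ m, co s m = co t m) : s = t := by
  have h0 := h 0
  have h1 := h 1
  have h2 := h 2
  simp [co] at h0 h1 h2
  exact Prod.ext (Fin.ext h0) (Prod.ext (Fin.ext h1) (Fin.ext h2))

/-- points with private primes -/
theorem exists_points (ι : Type) [Fintype ι] [DecidableEq ι] :
    ∃ (U : ι → ℕ) (P : ι × Fin 3 → ℕ), (∀ v, 5 ≤ U v) ∧ (∀ x, (P x).Prime) ∧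
      ∀ x : ι × Fin 3, ∀ v m, P x ∣ sh (U v) m ↔ x = (v, m) := by
  classical
  -- the primes
  have hinf : Set.Infinite {p : ℕ | p.Prime ∧ 5 ≤ p} := Set.infinite_of_forall_exists_gt fun n => by
    obtain ⟨p, hp, hpp⟩ := Nat.exists_infinite_primes (n + 5)
    exact ⟨p, ⟨hpp, by omega⟩, by omega⟩
  have : Infinite {p : ℕ // p.Prime ∧ 5 ≤ p} := hinf.to_subtype
  let e := Infinite.natEmbedding {p : ℕ // p.Prime ∧ 5 ≤ p}
  let e' := Fintype.equivFin (ι × Fin 3)
  let P : ι × Fin 3 → ℕ := fun x => (e (e' x : ℕ)).1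
  have hP : ∀ x, (P x).Prime := fun x => (e (e' x : ℕ)).2.1
  have hP5 : ∀ x, 5 ≤ P x := fun x => (e (e' x : ℕ)).2.2
  have hPi : Function.Injective P := by
    intro x y h
    have h1 := e.injective (Subtype.ext h)
    exact e'.injective (Fin.ext h1)
  -- the residues
  let res : ι → ι × Fin 3 → ℕ := fun v x =>
    if x.1 = v then (if x.2 = 0 then 0 else if x.2 = 1 then P x - 1 else 1) else 2
  have key : ∀ v, ∃ U : ℕ, ∀ x, U ≡ res v x [MOD P x] := by
    intro v
    have hc := Nat.chineseRemainderOfFinset (res v) P Finset.univ (fun x _ => (hP x).ne_zero)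
      (fun x _ y _ hxy => (Nat.coprime_primes (hP x) (hP y)).mpr fun h => hxy (hPi h))
    exact ⟨hc.1, fun x => hc.2 x (Finset.mem_univ _)⟩
  choose U hU using key
  have hmod : ∀ v x, (U v : ZMod (P x)) = (res v x : ℕ) := fun v x =>
    (ZMod.natCast_eq_natCast_iff _ _ _).mpr (hU v x)
  have hne2 : ∀ x, ((2 : ℕ) : ZMod (P x)) ≠ 0 := by
    intro x h
    rw [ZMod.natCast_eq_zero_iff] at h
    have := Nat.le_of_dvd (by norm_num) h
    have := hP5 x
    omega
  have hne3 : ∀ x, ((3 : ℕ) : ZMod (P x)) ≠ 0 := by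
    intro x h
    rw [ZMod.natCast_eq_zero_iff] at h
    have := Nat.le_of_dvd (by norm_num) h
    have := hP5 x
    omega
  have hne1 : ∀ x, ((1 : ℕ) : ZMod (P x)) ≠ 0 := by
    intro x h
    rw [ZMod.natCast_eq_zero_iff] at h
    have := Nat.le_of_dvd (by norm_num) h
    have := hP5 x
    omega
  have hm1 : ∀ x, ((P x - 1 : ℕ) : ZMod (P x)) = -1 := by
    intro x
    rw [Nat.cast_sub (hP x).one_le]
    simp
  have hU5 : ∀ v, 5 ≤ U v := by
    intro v
    have h0 : P (v, 0) ∣ U v := by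
      rw [← ZMod.natCast_eq_zero_iff, hmod]
      simp [res]
    have h1 : U v ≠ 0 := by
      intro h
      have h2 := hmod v (v, 1)
      rw [h] at h2
      simp only [res, if_true, Fin.isValue, one_ne_zero, if_false, hm1] at h2
      have h3 := hne1 (v, 1)
      push_cast at h2 h3
      exact h3 (by rw [← neg_eq_zero, ← h2])
    exact (hP5 _).trans (Nat.le_of_dvd (Nat.pos_of_ne_zero h1) h0)
  refine ⟨U, P, hU5, hP, ?_⟩
  intro x v m
  have hcast : ((sh (U v) m : ℕ) : ZMod (P x)) =
      (res v x : ℕ) + (if m = 0 then 0 else if m = 1 then 1 else -1) := by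
    unfold sh
    fin_cases m
    · simp [hmod]
    · simp [hmod]
    · simp only [Fin.reduceFinMk, Fin.isValue, Fin.reduceEq, if_false]
      rw [Nat.cast_sub (by have := hU5 v; omega), hmod]
      push_cast
      ring
  rw [← ZMod.natCast_eq_zero_iff, hcast]
  obtain ⟨u, a⟩ := x
  have t1 := hne1 (u, a)
  have t2 := hne2 (u, a)
  have t3 := hne3 (u, a)
  push_cast at t1 t2 t3
  by_cases huv : u = v
  · subst huv
    simp only [res, if_true, Prod.mk.injEq, true_and]
    fin_cases a <;> fin_cases m <;>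
      simp only [Fin.zero_eta, Fin.mk_one, Fin.reduceFinMk, Fin.isValue, Fin.reduceEq, if_true,
        if_false, one_ne_zero, zero_ne_one, iff_false, iff_true, hm1]
    all_goals first
      | (push_cast; ring; done)
      | (intro h; push_cast at h; apply t1; linear_combination h)
      | (intro h; push_cast at h; apply t1; linear_combination -h)
      | (intro h; push_cast at h; apply t2; linear_combination h)
      | (intro h; push_cast at h; apply t2; linear_combination -h)
      | (intro h; push_cast at h; apply t3; linear_combination h)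
  · have hne : ((u, a) : ι × Fin 3) ≠ (v, m) := fun h => huv (congrArg Prod.fst h)
    simp only [res, huv, if_false, hne, iff_false]
    fin_cases m <;>
      simp only [Fin.zero_eta, Fin.mk_one, Fin.reduceFinMk, Fin.isValue, Fin.reduceEq, if_true,
        if_false, one_ne_zero]
    all_goals first
      | (push_cast; ring; done)
      | (intro h; push_cast at h; apply t1; linear_combination h)
      | (intro h; push_cast at h; apply t1; linear_combination -h)
      | (intro h; push_cast at h; apply t2; linear_combination h)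
      | (intro h; push_cast at h; apply t2; linear_combination -h)
      | (intro h; push_cast at h; apply t3; linear_combination h)

/-- the value of the monomial `s` at `U u` -/
def gN {k : ℕ} (U : Fin k × Fin k × Fin k → ℕ) (u s : Fin k × Fin k × Fin k) : ℕ :=
  ∏ m : Fin 3, sh (U u) m ^ co s m

theorem sh_pos {U : ℕ} (hU : 5 ≤ U) (m : Fin 3) : 0 < sh U m := by
  unfold sh; split_ifs <;> omega

theorem gN_pos {k : ℕ} {U : Fin k × Fin k × Fin k → ℕ} (hU : ∀ v, 5 ≤ U v)
    (u s : Fin k × Fin k × Fin k) : 0 < gN U u s :=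
  Finset.prod_pos fun m _ => pow_pos (sh_pos (hU u) m) _

/-- the product belonging to a permutation -/
def GG {k : ℕ} (U : Fin k × Fin k × Fin k → ℕ) (σ : Equiv.Perm (Fin k × Fin k × Fin k)) : ℕ :=
  ∏ i, gN U (σ i) i

theorem GG_pos {k : ℕ} {U : Fin k × Fin k × Fin k → ℕ} (hU : ∀ v, 5 ≤ U v)
    (σ : Equiv.Perm (Fin k × Fin k × Fin k)) : 0 < GG U σ :=
  Finset.prod_pos fun i _ => gN_pos hU (σ i) i

theorem GG_inj {k : ℕ} {U : Fin k × Fin k × Fin k → ℕ} {P : (Fin k × Fin k × Fin k) × Fin 3 → ℕ}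
    (hU : ∀ v, 5 ≤ U v) (hP : ∀ x, (P x).Prime)
    (hd : ∀ x : (Fin k × Fin k × Fin k) × Fin 3, ∀ v m, P x ∣ sh (U v) m ↔ x = (v, m)) :
    Function.Injective (GG U) := by
  classical
  have key : ∀ (σ : Equiv.Perm (Fin k × Fin k × Fin k)) (u : Fin k × Fin k × Fin k) (a : Fin 3),
      (GG U σ).factorization (P (u, a)) =
        co (σ.symm u) a * (sh (U u) a).factorization (P (u, a)) := by
    intro σ u a
    unfold GG gN
    rw [Nat.factorization_prod fun i _ => (Finset.prod_ne_zero_iff.mpr fun m _ =>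
      pow_ne_zero _ (sh_pos (hU _) m).ne')]
    rw [Finsupp.finsetSum_apply]
    have h1 : ∀ i : Fin k × Fin k × Fin k,
        (∏ m : Fin 3, sh (U (σ i)) m ^ co i m).factorization (P (u, a)) =
          ∑ m : Fin 3, co i m * (sh (U (σ i)) m).factorization (P (u, a)) := by
      intro i
      rw [Nat.factorization_prod fun m _ => pow_ne_zero _ (sh_pos (hU _) m).ne',
        Finsupp.finsetSum_apply]
      refine Finset.sum_congr rfl fun m _ => ?_
      rw [Nat.factorization_pow]
      simp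
    have h2 : ∀ i : Fin k × Fin k × Fin k, ∀ m : Fin 3, (u, a) ≠ (σ i, m) →
        (sh (U (σ i)) m).factorization (P (u, a)) = 0 := by
      intro i m h
      exact Nat.factorization_eq_zero_of_not_dvd fun hdv => h ((hd _ _ _).mp hdv)
    rw [Finset.sum_congr rfl fun i _ => h1 i]
    rw [Finset.sum_eq_single (σ.symm u)]
    · rw [Finset.sum_eq_single a]
      · rw [σ.apply_symm_apply]
      · intro m _ hm
        rw [h2 _ _ (by rintro h; exact hm (congrArg Prod.snd h).symm), mul_zero]
      · intro h; exact absurd (Finset.mem_univ _) h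
    · intro i _ hi
      refine Finset.sum_eq_zero fun m _ => ?_
      rw [h2 _ _ (by
        rintro h
        apply hi
        have h3 : u = σ i := congrArg Prod.fst h
        rw [h3, σ.symm_apply_apply]), mul_zero]
    · intro h; exact absurd (Finset.mem_univ _) h
  intro σ τ h
  have h1 : ∀ u, σ.symm u = τ.symm u := by
    intro u
    refine co_inj fun a => ?_
    have h2 := key σ u a
    rw [h, key τ u a] at h2
    have h3 : 0 < (sh (U u) a).factorization (P (u, a)) :=
      (hP _).factorization_pos_of_dvd (sh_pos (hU u) a).ne' ((hd _ _ _).mpr rfl)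
    exact (Nat.eq_of_mul_eq_mul_right h3 h2).symm
  have h2 : σ.symm = τ.symm := Equiv.ext h1
  exact Equiv.symm_bijective.injective h2

/-- **P6**: the functions `U ^ (-N i) (U + 1) ^ (-N j) (U - 1) ^ (-N l)`, `i, j, l < k`, are linearly
independent on `U > 1` for large `N`. -/
theorem indep (k : ℕ) : ∃ N₁ : ℕ, ∀ N : ℕ, N₁ ≤ N → ∀ c : Fin k × Fin k × Fin k → ℝ,
    (∀ U : ℝ, 1 < U → ∑ s, c s * (U ^ (N * (s.1 : ℕ)) * (U + 1) ^ (N * (s.2.1 : ℕ)) *
      (U - 1) ^ (N * (s.2.2 : ℕ)))⁻¹ = 0) → c = 0 := by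
  classical
  obtain ⟨U, P, hU, hP, hd⟩ := exists_points (Fin k × Fin k × Fin k)
  have hinj := GG_inj hU hP hd
  obtain ⟨N₁, hN₁⟩ := sum_pow_ne_zero (F := Equiv.Perm (Fin k × Fin k × Fin k))
    (fun σ => ((GG U σ : ℕ) : ℝ)⁻¹) (fun σ => ((Equiv.Perm.sign σ : ℤ) : ℝ))
    (fun σ => inv_pos.mpr (Nat.cast_pos.mpr (GG_pos hU σ)))
    (fun σ τ h => hinj (Nat.cast_injective (inv_injective h)))
    (fun σ => by
      rcases Int.units_eq_one_or (Equiv.Perm.sign σ) with h | h <;> rw [h] <;> simp)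
  refine ⟨N₁, fun N hN c hc => ?_⟩
  let A : Matrix (Fin k × Fin k × Fin k) (Fin k × Fin k × Fin k) ℝ :=
    Matrix.of fun u s => (((gN U u s : ℕ) : ℝ) ^ N)⁻¹
  have hdet : A.det ≠ 0 := by
    rw [Matrix.det_apply']
    have h1 : ∀ σ : Equiv.Perm (Fin k × Fin k × Fin k),
        ((Equiv.Perm.sign σ : ℤ) : ℝ) * ∏ i, A (σ i) i =
          ((Equiv.Perm.sign σ : ℤ) : ℝ) * (((GG U σ : ℕ) : ℝ)⁻¹) ^ N := by
      intro σ
      congr 1
      unfold GG
      push_cast
      rw [← Finset.prod_inv_distrib, ← Finset.prod_pow]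
      refine Finset.prod_congr rfl fun i _ => ?_
      rw [inv_pow]
      rfl
    rw [Finset.sum_congr rfl fun σ _ => h1 σ]
    exact hN₁ N hN
  refine Matrix.eq_zero_of_mulVec_eq_zero hdet ?_
  funext u
  have h1 := hc (U u) (by have := hU u; exact_mod_cast (by omega : 1 < U u))
  rw [Matrix.mulVec, dotProduct]
  rw [Pi.zero_apply, ← h1]
  refine Finset.sum_congr rfl fun s _ => ?_
  rw [mul_comm]
  congr 1
  show (((gN U u s : ℕ) : ℝ) ^ N)⁻¹ = _
  congr 1
  unfold gN
  rw [Fin.prod_univ_three]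
  have h5 := hU u
  have e3 : ((U u - 1 : ℕ) : ℝ) = (U u : ℝ) - 1 := by
    rw [Nat.cast_sub (by omega)]; simp
  simp only [sh, co, if_true, Fin.isValue, one_ne_zero, if_false, Fin.reduceEq]
  push_cast [e3]
  rw [mul_pow, mul_pow, ← pow_mul, ← pow_mul, ← pow_mul]
  rw [mul_comm N, mul_comm N, mul_comm N]

end Pool.Agent.K4H27.TN
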